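import Pool.Agent.Y33.RN.Stm
import Pool.Agent.Y33.RN.Wl

set_option autoImplicit false
set_option linter.unusedSectionVars false

/-!
# The limit group (helper543, job RTOW of the project RN of helper33)

Adapted from `Pool.Agent.Y375.SM.Tower`.
-/

namespace Pool.Agent.Y543.RN.Tow

open Pool.Agent.TH54.BU Pool.Agent.Y33.RN
open Pool.Agent.Y33.SM (Cut NW Str NC)

/-! ### quotient distances -/

section qdist

variable {B : Type} [Group B] (w0 : GH B)

theorem qd_spec (N : Subgroup B) [N.Normal] (u v : B ⧸ N) :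
    ∃ g : B, (g : B ⧸ N) = u⁻¹ * v ∧ w0.len g = qd w0 N u v := by
  have hne : {k | ∃ g : B, (g : B ⧸ N) = u⁻¹ * v ∧ w0.len g = k}.Nonempty := by
    obtain ⟨g, hg⟩ := QuotientGroup.mk_surjective (u⁻¹ * v)
    exact ⟨_, g, hg, rfl⟩
  exact Nat.sInf_mem hne

theorem qd_le (N : Subgroup B) [N.Normal] {u v : B ⧸ N} {g : B}
    (h : (g : B ⧸ N) = u⁻¹ * v) : qd w0 N u v ≤ w0.len g := Nat.sInf_le ⟨g, h, rfl⟩

theorem qd_inv_mul (N : Subgroup B) [N.Normal] (x y : B ⧸ N) :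
    qd w0 N x y = qd w0 N 1 (x⁻¹ * y) := by
  unfold qd
  rw [inv_one, one_mul]

theorem qd_coe (N : Subgroup B) [N.Normal] (x y : B) :
    qd w0 N (x : B ⧸ N) (y : B ⧸ N) = qd w0 N 1 ((x⁻¹ * y : B) : B ⧸ N) := by
  rw [qd_inv_mul]
  rfl

theorem qd_one_le (N : Subgroup B) [N.Normal] (x : B) :
    qd w0 N 1 (x : B ⧸ N) ≤ w0.len x := qd_le w0 N (by rw [inv_one, one_mul])

theorem qd_coe_le (N : Subgroup B) [N.Normal] (x y : B) :
    qd w0 N (x : B ⧸ N) (y : B ⧸ N) ≤ w0.len (x⁻¹ * y) := by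
  rw [qd_coe]
  exact qd_one_le w0 N _

theorem mk_eq {N : Subgroup B} {x y : B} :
    (x : B ⧸ N) = (y : B ⧸ N) ↔ x⁻¹ * y ∈ N := QuotientGroup.eq

theorem mk_mono {N N' : Subgroup B} (h : N ≤ N') {x y : B}
    (hxy : (x : B ⧸ N) = (y : B ⧸ N)) : (x : B ⧸ N') = (y : B ⧸ N') := by
  rw [mk_eq] at hxy ⊢
  exact h hxy

theorem qd_anti {N N' : Subgroup B} [N.Normal] [N'.Normal] (h : N ≤ N') (x : B) :
    qd w0 N' 1 (x : B ⧸ N') ≤ qd w0 N 1 (x : B ⧸ N) := by
  obtain ⟨f, hf, hn⟩ := qd_spec w0 N 1 (x : B ⧸ N)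
  rw [inv_one, one_mul] at hf
  rw [← hn]
  exact qd_le w0 N' (by rw [inv_one, one_mul]; exact mk_mono h hf)

theorem qd_zero {N : Subgroup B} [N.Normal] {x : B} (h : qd w0 N 1 (x : B ⧸ N) = 0) :
    x ∈ N := by
  obtain ⟨f, hf, hn⟩ := qd_spec w0 N 1 (x : B ⧸ N)
  rw [h] at hn
  rw [inv_one, one_mul, w0.eq_one f hn, mk_eq, inv_one, one_mul] at hf
  exact hf

theorem qd_mem {N : Subgroup B} [N.Normal] {x : B} (h : x ∈ N) :
    qd w0 N 1 (x : B ⧸ N) = 0 := by
  have e : (x : B ⧸ N) = ((1 : B) : B ⧸ N) := by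
    rw [mk_eq, mul_one]
    exact N.inv_mem h
  have := qd_one_le w0 N 1
  rw [w0.len_one] at this
  rw [e]
  omega

/-- lifts of paths -/
theorem lift_path' (N : Subgroup B) [N.Normal] (σ : ℕ → B ⧸ N) (n : ℕ)
    (hσ : ∀ k, k < n → qd w0 N (σ k) (σ (k + 1)) ≤ 1) (f0 : B) (h0 : (f0 : B ⧸ N) = σ 0) :
    ∃ τ : ℕ → B, τ 0 = f0 ∧ (∀ k, k ≤ n → (τ k : B ⧸ N) = σ k) ∧
      ∀ k k', k ≤ k' → k' ≤ n → w0.len ((τ k)⁻¹ * τ k') ≤ k' - k := by
  have hch : ∀ k, ∃ f : B, (f : B ⧸ N) = (σ k)⁻¹ * σ (k + 1) ∧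
      w0.len f = qd w0 N (σ k) (σ (k + 1)) := fun k => qd_spec w0 N _ _
  choose s hs1 hs2 using hch
  let τ : ℕ → B := fun k => Nat.rec f0 (fun j x => x * s j) k
  have hτ0 : τ 0 = f0 := rfl
  have hτs : ∀ k, τ (k + 1) = τ k * s k := fun k => rfl
  refine ⟨τ, hτ0, ?_, ?_⟩
  · intro k
    induction k with
    | zero => intro _; rw [hτ0, h0]
    | succ k ih =>
      intro hk
      rw [hτs, QuotientGroup.mk_mul, ih (by omega), hs1, mul_inv_cancel_left]
  · intro k k' hk hk'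
    induction k' with
    | zero =>
      obtain rfl : k = 0 := by omega
      rw [inv_mul_cancel, w0.len_one]
    | succ m ih =>
      rcases Nat.lt_or_ge m k with h | h
      · obtain rfl : k = m + 1 := by omega
        rw [inv_mul_cancel, w0.len_one]
        omega
      · have h1 := ih h (by omega)
        have e : (τ k)⁻¹ * τ (m + 1) = ((τ k)⁻¹ * τ m) * s m := by
          rw [hτs, mul_assoc]
        rw [e]
        have h2 := w0.len_mul ((τ k)⁻¹ * τ m) (s m)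
        have h3 : w0.len (s m) ≤ 1 := by
          rw [hs2]
          exact hσ m (by omega)
        omega

/-- words of elements of length at most one -/
theorem exists_word1 (g : B) : ∃ l : List B, (∀ x ∈ l, w0.len x ≤ 1) ∧ l.prod = g ∧
    l.length = w0.len g := by
  obtain ⟨n, hn⟩ : ∃ n, w0.len g = n := ⟨_, rfl⟩
  induction n generalizing g with
  | zero =>
    refine ⟨[], by simp, ?_, by rw [hn]; rfl⟩
    rw [w0.eq_one g hn]
    rfl
  | succ n ih =>
    obtain ⟨h, h1, h2⟩ := w0.step g 1 (by omega)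
    obtain ⟨l, k1, k2, k3⟩ := ih (h⁻¹ * g) (by omega)
    refine ⟨h :: l, ?_, ?_, ?_⟩
    · intro x hx
      rcases List.mem_cons.1 hx with rfl | hx
      · exact h1.le
      · exact k1 x hx
    · rw [List.prod_cons, k2, mul_inv_cancel_left]
    · rw [List.length_cons, k3]
      omega

/-! ### the word length -/

open Pool.Agent.H659R3.MorseLim

/-- the generators -/
noncomputable def gens (hfb : {g : B | w0.len g ≤ 1}.Finite) (N : Subgroup B) [N.Normal] :
    FinGen (B ⧸ N) where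
  S := im N {g : B | w0.len g ≤ 1}
  finite := hfb.image _
  gen := by
    rw [eq_top_iff]
    rintro x -
    obtain ⟨g, rfl⟩ := QuotientGroup.mk_surjective x
    apply mem_im
    obtain ⟨l, h1, h2, -⟩ := exists_word1 w0 g
    rw [← h2]
    exact prod_mem h1

theorem len_eq (hfb : {g : B | w0.len g ≤ 1}.Finite) (N : Subgroup B) [N.Normal] (x : B ⧸ N) :
    (gens w0 hfb N).len x = qd w0 N 1 x := by
  apply le_antisymm
  · obtain ⟨g, hg, hn⟩ := qd_spec w0 N 1 x
    rw [inv_one, one_mul] at hg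
    rw [← hn, ← hg]
    obtain ⟨l, h1, h2, h3⟩ := exists_word1 w0 g
    rw [← h3, ← h2]
    have h4 := im_word (M := N) (S := {g : B | w0.len g ≤ 1}) h1
    rw [← h4.2]
    refine ((gens w0 hfb N).len_le ?_).trans (le_of_eq (List.length_map _))
    intro y hy
    exact Or.inl (h4.1 y hy)
  · obtain ⟨l, h1, h2, h3⟩ := (gens w0 hfb N).len_spec x
    have key : ∀ l : List (B ⧸ N), (gens w0 hfb N).IsW l →
        ∃ g : B, (g : B ⧸ N) = l.prod ∧ w0.len g ≤ l.length := by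
      intro l
      induction l with
      | nil => exact fun _ => ⟨1, rfl, by rw [w0.len_one]; exact Nat.zero_le _⟩
      | cons y l ih =>
        intro hl
        obtain ⟨f, hf, hn⟩ := ih fun z hz => hl z (List.mem_cons_of_mem _ hz)
        obtain ⟨g, hg, hgn⟩ : ∃ g : B, (g : B ⧸ N) = y ∧ w0.len g ≤ 1 := by
          rcases hl y List.mem_cons_self with h | h
          · obtain ⟨g, hg, rfl⟩ := h
            exact ⟨g, rfl, hg⟩
          · obtain ⟨g, hg, hgn⟩ := h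
            have hgn' : (g : B ⧸ N) = y⁻¹ := hgn
            refine ⟨g⁻¹, by rw [QuotientGroup.mk_inv, hgn', inv_inv], ?_⟩
            rw [w0.len_inv]
            exact hg
        refine ⟨g * f, by rw [QuotientGroup.mk_mul, hg, hf, List.prod_cons], ?_⟩
        have := w0.len_mul g f
        rw [List.length_cons]
        omega
    obtain ⟨f, hf, hn⟩ := key l h2
    rw [← h1]
    refine le_trans (qd_le w0 N ?_) hn
    rw [inv_one, one_mul, hf, h3]

theorem dist_eq (hfb : {g : B | w0.len g ≤ 1}.Finite) (N : Subgroup B) [N.Normal] :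
    (gens w0 hfb N).dist = qd w0 N := by
  funext x y
  rw [qd_inv_mul]
  exact len_eq w0 hfb N _

end qdist

/-! ### the base -/

section base

variable {B : Type} [Group B]

/-- the length on the quotient by the trivial subgroup -/
noncomputable def wbot (w0 : GH B) : GH (B ⧸ (⊥ : Subgroup B)) where
  len q := w0.len (QuotientGroup.quotientBot q)
  D := w0.D
  len_one := by rw [map_one, w0.len_one]
  eq_one q h := by
    have := w0.eq_one _ h
    exact (MulEquiv.map_eq_one_iff _).1 this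
  len_inv q := by rw [map_inv, w0.len_inv]
  len_mul q q' := by rw [map_mul]; exact w0.len_mul _ _
  fp' u v w z := by
    simp only [map_mul, map_inv]
    exact w0.fp' _ _ _ _
  step q k hk := by
    obtain ⟨h, h1, h2⟩ := w0.step _ k hk
    refine ⟨(h : B ⧸ (⊥ : Subgroup B)), ?_, ?_⟩
    · exact h1
    · rw [map_mul, map_inv]
      exact h2

theorem qbot (g : B) : QuotientGroup.quotientBot (g : B ⧸ (⊥ : Subgroup B)) = g := rfl

theorem qbot' (q : B ⧸ (⊥ : Subgroup B)) :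
    ((QuotientGroup.quotientBot q : B) : B ⧸ (⊥ : Subgroup B)) = q := by
  obtain ⟨g, rfl⟩ := QuotientGroup.mk_surjective q
  rfl

theorem base {w0 : GH B} {f0 : B →* Multiplicative ℤ} {S : Set B} {t c b : B}
    (rd : Rd w0 f0 S t c b) : Lev w0 f0 S t c b ⊥ := by
  have hlen : ∀ g : B, (wbot w0).len (g : B ⧸ (⊥ : Subgroup B)) = w0.len g := fun g => rfl
  have hinj : ∀ g g' : B, (g : B ⧸ (⊥ : Subgroup B)) = (g' : B ⧸ (⊥ : Subgroup B)) → g = g' := by
    intro g g' h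
    rw [mk_eq, Subgroup.mem_bot] at h
    exact inv_mul_eq_one.1 h
  let f : B ⧸ (⊥ : Subgroup B) →* Multiplicative ℤ :=
    f0.comp (QuotientGroup.quotientBot (G := B)).toMonoidHom
  have hf : ∀ g : B, f (g : B ⧸ (⊥ : Subgroup B)) = f0 g := fun g => rfl
  refine ⟨wbot w0, f, ?_, hf, ?_⟩
  · intro q
    obtain ⟨g, rfl⟩ := QuotientGroup.mk_surjective q
    apply le_antisymm
    · obtain ⟨h, h1, h2⟩ := qd_spec w0 (⊥ : Subgroup B) 1 (g : B ⧸ (⊥ : Subgroup B))
      rw [inv_one, one_mul] at h1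
      rw [← h2, hinj h g h1]
      exact (hlen g).le
    · exact qd_one_le w0 _ g
  · have hS := rd.inv
    exact
      { nw :=
          { fb := by
              intro n
              refine ((rd.nw.fb n).image (fun g : B => (g : B ⧸ (⊥ : Subgroup B)))).subset ?_
              intro q hq
              exact ⟨QuotientGroup.quotientBot q, hq, qbot' q⟩
            odd := by
              intro q hq
              obtain ⟨g, rfl⟩ := QuotientGroup.mk_surjective q
              have h1 := hinj (g ^ 2) 1 hq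
              rw [rd.nw.odd g h1]
              rfl
            com := by
              intro a q ha ho hc
              obtain ⟨a, rfl⟩ := QuotientGroup.mk_surjective a
              obtain ⟨g, rfl⟩ := QuotientGroup.mk_surjective q
              have h1 : a ≠ 1 := by
                rintro rfl
                exact ha rfl
              have h2 : IsOfFinOrder a := by
                have := MonoidHom.isOfFinOrder
                  (QuotientGroup.quotientBot (G := B)).toMonoidHom ho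
                exact this
              have h3 := hinj (a * g) (g * a) hc
              exact MonoidHom.isOfFinOrder (QuotientGroup.mk' (⊥ : Subgroup B))
                (rd.nw.com a g h1 h2 h3) }
        fin := rd.fin.image _
        inv := im_inv hS
        one := by
          rintro _ ⟨s, hs, rfl⟩
          exact rd.one s hs
        ker := by
          intro q
          obtain ⟨g, rfl⟩ := QuotientGroup.mk_surjective q
          rw [hf, rd.ker]
          refine ⟨mem_im, ?_⟩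
          rw [closure_im]
          rintro ⟨h, hh, hhg⟩
          rw [← hinj h g hhg]
          exact hh
        lip := by
          intro q
          obtain ⟨g, rfl⟩ := QuotientGroup.mk_surjective q
          exact rd.lip g
        ft := rd.ft
        cS := ⟨c, rd.cS, rfl⟩
        bS := ⟨b, rd.bS, rfl⟩
        st := fun k => rd.st k
        sc := fun k => rd.sc k
        sb := fun k => rd.sb k
        nc := by
          intro q k m hk h
          obtain ⟨g, rfl⟩ := QuotientGroup.mk_surjective q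
          exact rd.nc g k m hk (hinj _ _ h) }

end base

/-! ### the sequence -/

section seq

variable {B : Type} [Group B] {w0 : GH B} {f0 : B →* Multiplicative ℤ} {S : Set B} {t c b : B}

/-- the state of the construction -/
structure St (w0 : GH B) (f0 : B →* Multiplicative ℤ) (S : Set B) (t c b : B) where
  N : Subgroup B
  nrm : N.Normal
  R : ℕ
  s : ℕ
  lev : Lev w0 f0 S t c b N

attribute [instance] St.nrm

/-- one step -/
structure Stp (Λ j : ℕ) (X X' : St w0 f0 S t c b) (D : ℕ) : Prop where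
  jD : j ≤ D
  le : X.N ≤ X'.N
  rad : j + 100 * (X.s + X.R + (j + 2) * (D + 1)) ≤ X'.R
  iso : ∀ g : B, qd w0 X.N 1 (g : B ⧸ X.N) ≤ X'.R →
    qd w0 X'.N 1 (g : B ⧸ X'.N) = qd w0 X.N 1 (g : B ⧸ X.N)
  cut : ∀ t1 : ℕ, Cut (qd w0 X'.N) (t : B ⧸ X'.N) j j D t1
  det : ∀ (γ : ℕ → B ⧸ X'.N) (l : ℕ), HGeo (im X'.N S) γ l → X'.s ≤ l →
    HDet (im X'.N S) Λ X'.R X'.s γ l

theorem step (h : S_RSTF) : ∃ Λ : ℕ, ∀ (B : Type) [Group B] (w0 : GH B)
    (f0 : B →* Multiplicative ℤ) (S : Set B) (t c b : B) (j : ℕ) (X : St w0 f0 S t c b),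
    ∃ (X' : St w0 f0 S t c b) (D : ℕ), Stp Λ j X X' D := by
  obtain ⟨Λ, h⟩ := h
  refine ⟨Λ, fun B _ w0 f0 S t c b j X => ?_⟩
  obtain ⟨D0, hD0⟩ := h B w0 f0 S t c b X.N X.lev j j
  obtain ⟨N', hN', s, hle, hlev, hiso, hcut, hdet⟩ :=
    hD0 (j + 100 * (X.s + X.R + (j + 2) * (D0 + j + 1)))
  refine ⟨⟨N', hN', _, s, hlev⟩, D0 + j, ⟨by omega, hle, le_rfl, hiso, ?_, hdet⟩⟩
  intro t1 t ht
  exact hcut t1 t (by omega)

variable {Λ : ℕ} (X : ℕ → St w0 f0 S t c b) (D : ℕ → ℕ)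
  (hX : ∀ j, Stp Λ j (X j) (X (j + 1)) (D j))

include hX

theorem N_mono {j k : ℕ} (h : j ≤ k) : (X j).N ≤ (X k).N := by
  induction h with
  | refl => exact le_rfl
  | @step m _ ih => exact ih.trans (hX m).le

theorem R_mono {j k : ℕ} (h : j ≤ k) : (X j).R ≤ (X k).R := by
  induction h with
  | refl => exact le_rfl
  | @step m _ ih =>
    have := (hX m).rad
    have h2 : (X m).R ≤ (X (m + 1)).R := by nlinarith [Nat.zero_le ((m + 2) * (D m + 1))]
    exact ih.trans h2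

theorem iso_later {j k : ℕ} (h : j ≤ k) (f : B)
    (hf : qd w0 (X j).N 1 (f : B ⧸ (X j).N) ≤ (X (j + 1)).R) :
    qd w0 (X k).N 1 (f : B ⧸ (X k).N) = qd w0 (X j).N 1 (f : B ⧸ (X j).N) := by
  induction h with
  | refl => rfl
  | @step m hm ih =>
    rw [(hX m).iso f, ih]
    rw [ih]
    exact hf.trans (R_mono X D hX (Nat.succ_le_succ hm))

omit hX in
/-- the limit -/
def Ni (X : ℕ → St w0 f0 S t c b) : Subgroup B := ⨆ j, (X j).N

omit hX in
instance (X : ℕ → St w0 f0 S t c b) : (Ni X).Normal := by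
  unfold Ni
  exact Subgroup.iSup_normal _

theorem mem_Ni {f : B} : f ∈ Ni X ↔ ∃ j, f ∈ (X j).N := by
  unfold Ni
  rw [Subgroup.mem_iSup_of_directed]
  exact (show Monotone fun j => (X j).N from fun a b hab => N_mono X D hX hab).directed_le

omit hX in
theorem le_Ni (j : ℕ) : (X j).N ≤ Ni X := by
  unfold Ni
  exact le_iSup (fun j => (X j).N) j

theorem iso_lim (j : ℕ) (f : B)
    (hf : qd w0 (X j).N 1 (f : B ⧸ (X j).N) ≤ (X (j + 1)).R) :
    qd w0 (Ni X) 1 (f : B ⧸ Ni X) = qd w0 (X j).N 1 (f : B ⧸ (X j).N) := by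
  apply le_antisymm (qd_anti w0 (le_Ni X j) f)
  obtain ⟨g, hg, hn⟩ := qd_spec w0 (Ni X) 1 (f : B ⧸ Ni X)
  rw [inv_one, one_mul, mk_eq, mem_Ni X D hX] at hg
  obtain ⟨k, hk⟩ := hg
  have hk' : g⁻¹ * f ∈ (X (max j k)).N := N_mono X D hX (le_max_right _ _) hk
  have e := iso_later X D hX (le_max_left j k) f hf
  rw [← e, ← hn, ← mk_eq.2 hk']
  exact qd_one_le w0 _ g

theorem iso_norm (j : ℕ) (f : B) (hf : w0.len f ≤ (X (j + 1)).R) :
    qd w0 (Ni X) 1 (f : B ⧸ Ni X) = qd w0 (X j).N 1 (f : B ⧸ (X j).N) :=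
  iso_lim X D hX j f ((qd_one_le w0 _ f).trans hf)

theorem mem_norm (j : ℕ) (f : B) (hf : w0.len f ≤ (X (j + 1)).R) (h : f ∈ Ni X) :
    f ∈ (X j).N := by
  apply qd_zero w0
  rw [← iso_norm X D hX j f hf]
  exact qd_mem w0 h

theorem R_ge (j : ℕ) : j + 100 * (X j).s + 100 * (j + 2) * (D j + 1) ≤ (X (j + 1)).R := by
  have := (hX j).rad
  nlinarith [Nat.zero_le ((X j).R)]

/-- powers of elements which are geodesic at every level -/
theorem str_lim (a : B) (ha : ∀ k : ℕ, w0.len (a ^ k) = k)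
    (ha' : ∀ j k : ℕ, qd w0 (X j).N 1 ((a : B ⧸ (X j).N) ^ k) = k) (k : ℕ) :
    qd w0 (Ni X) 1 ((a : B ⧸ Ni X) ^ k) = k := by
  have h1 : (X (k + 1)).R ≥ k := by
    have := R_ge X D hX k
    omega
  have h2 := iso_norm X D hX k (a ^ k) (by rw [ha]; exact h1)
  rw [QuotientGroup.mk_pow, QuotientGroup.mk_pow] at h2
  rw [h2, ha']

omit hX in
theorem str_t (j k : ℕ) : qd w0 (X j).N 1 ((t : B ⧸ (X j).N) ^ k) = k := by
  obtain ⟨w, f, hw, _, rd⟩ := (X j).lev
  rw [← hw]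
  exact rd.st k

omit hX in
theorem str_b (j k : ℕ) : qd w0 (X j).N 1 ((b : B ⧸ (X j).N) ^ k) = k := by
  obtain ⟨w, f, hw, _, rd⟩ := (X j).lev
  rw [← hw]
  exact rd.sb k

/-- divergence -/
theorem div_lim (ht0 : ∀ k : ℕ, w0.len (t ^ k) = k) (C r : ℕ) : ∃ D0 : ℕ, ∀ t1 : ℕ, D0 ≤ t1 →
    Cut (qd w0 (Ni X)) (t : B ⧸ Ni X) C r t1 t1 := by
  refine ⟨∑ m ∈ Finset.range (C + r + 1), D m, fun t1 ht => ?_⟩
  have hDle : ∀ m, m ≤ C + r → D m ≤ t1 := by
    intro m hm
    refine le_trans ?_ ht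
    exact Finset.single_le_sum (f := D) (fun _ _ => Nat.zero_le _)
      (Finset.mem_range.2 (by omega))
  have hex : ∃ m, t1 < D m := ⟨t1 + 1, by have := (hX (t1 + 1)).jD; omega⟩
  classical
  have hj1 := Nat.find_spec hex
  have hj2 : ∀ m, m < Nat.find hex → D m ≤ t1 := fun m hm => not_lt.1 (Nat.find_min hex hm)
  set J := Nat.find hex with hJ
  have hJC : C + r < J := by
    by_contra hcon
    have := hDle J (by omega)
    omega
  obtain ⟨j, hj⟩ : ∃ j, J = j + 1 := ⟨J - 1, by omega⟩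
  rw [hj] at hj1 hj2
  have hDj : D j ≤ t1 := hj2 j (by omega)
  have hrad := R_ge X D hX (j + 1)
  intro t' ht1 ht2 σ M hσ h0 hM hfar
  obtain rfl : t' = t1 := le_antisymm ht2 ht1
  by_contra hlen
  push Not at hlen
  obtain ⟨τ, hτ0, hτ, hτn⟩ := lift_path' w0 (Ni X) σ M hσ (t ^ t') (by
    rw [h0, QuotientGroup.mk_pow])
  -- the norm of the end
  have hbig : (C + 2) * t' ≤ (X (j + 1 + 1)).R := by
    have h1 : (C + 2) * t' ≤ (j + 1 + 2) * (D (j + 1) + 1) :=
      Nat.mul_le_mul (by omega) (by omega)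
    have h2 : (j + 1 + 2) * (D (j + 1) + 1) ≤ 100 * (j + 1 + 2) * (D (j + 1) + 1) :=
      Nat.mul_le_mul_right _ (by omega)
    omega
  have hend : t ^ t' * τ M ∈ (X (j + 1)).N := by
    apply mem_norm X D hX
    · have e : t ^ t' * τ M = (t ^ t' * t ^ t') * ((τ 0)⁻¹ * τ M) := by
        rw [hτ0]
        group
      have h1 := hτn 0 M (Nat.zero_le _) le_rfl
      have h2 := w0.len_mul (t ^ t' * t ^ t') ((τ 0)⁻¹ * τ M)
      have h3 := w0.len_mul (t ^ t') (t ^ t')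
      rw [ht0] at h3
      rw [← e] at h2
      have h4 : (C + 2) * t' = C * t' + t' + t' := by ring
      omega
    · have h1 := hτ M le_rfl
      rw [hM] at h1
      have h2 : ((t ^ t' * τ M : B) : B ⧸ Ni X) = 1 := by
        rw [QuotientGroup.mk_mul, h1, QuotientGroup.mk_pow]
        exact mul_inv_cancel _
      exact (QuotientGroup.eq_one_iff _).1 h2
  have hcut := (hX j).cut t' t' hDj le_rfl (fun k => (τ k : B ⧸ (X (j + 1)).N)) M ?_ ?_ ?_ ?_
  · have h5 : C * t' ≤ j * t' := Nat.mul_le_mul_right _ (by omega)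
    omega
  · intro k hk
    refine (qd_coe_le w0 _ _ _).trans ?_
    have := hτn k (k + 1) (by omega) (by omega)
    omega
  · show (τ 0 : B ⧸ (X (j + 1)).N) = _
    rw [hτ0, QuotientGroup.mk_pow]
  · show (τ M : B ⧸ (X (j + 1)).N) = _
    have h2 : ((t ^ t' * τ M : B) : B ⧸ (X (j + 1)).N) = 1 :=
      (QuotientGroup.eq_one_iff _).2 hend
    rw [QuotientGroup.mk_mul, QuotientGroup.mk_pow] at h2
    exact (inv_eq_of_mul_eq_one_right h2).symm
  · intro k hk
    have h1 := hfar k hk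
    rw [← hτ k hk] at h1
    have h2 := qd_anti w0 (le_Ni X (j + 1)) (τ k)
    calc t' ≤ r * qd w0 (Ni X) 1 (τ k : B ⧸ Ni X) := h1
      _ ≤ j * qd w0 (X (j + 1)).N 1 (τ k : B ⧸ (X (j + 1)).N) :=
        Nat.mul_le_mul (by omega) h2

omit hX in
/-- the word length of the subgroup decreases -/
theorem wl_anti (hS : ∀ s ∈ S, s⁻¹ ∈ S) (j : ℕ) (g : B)
    (hg : (g : B ⧸ (X j).N) ∈ Subgroup.closure (im (X j).N S)) :
    (g : B ⧸ Ni X) ∈ Subgroup.closure (im (Ni X) S) ∧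
      wl (im (Ni X) S) (g : B ⧸ Ni X) ≤ wl (im (X j).N S) (g : B ⧸ (X j).N) := by
  obtain ⟨h, h1, h2, h3⟩ := wl_im_lift hS hg
  have e : (h : B ⧸ Ni X) = (g : B ⧸ Ni X) := mk_mono (le_Ni X j) h2
  rw [← e, ← h3]
  exact ⟨mem_im h1, wl_im_le hS h1⟩

/-- short elements keep their word length -/
theorem wl_lim (hS : ∀ s ∈ S, s⁻¹ ∈ S) (hone : ∀ s ∈ S, w0.len s ≤ 1) (j : ℕ) (g : B)
    (hg : (g : B ⧸ (X j).N) ∈ Subgroup.closure (im (X j).N S))
    (hs : 2 * wl (im (X j).N S) (g : B ⧸ (X j).N) ≤ (X (j + 1)).R) :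
    wl (im (Ni X) S) (g : B ⧸ Ni X) = wl (im (X j).N S) (g : B ⧸ (X j).N) := by
  obtain ⟨hm, hle⟩ := wl_anti X hS j g hg
  apply le_antisymm hle
  obtain ⟨h, h1, h2, h3⟩ := wl_im_lift hS hg
  obtain ⟨h', h1', h2', h3'⟩ := wl_im_lift hS hm
  have l1 := len_le_wl w0 hS hone h1
  have l2 := len_le_wl w0 hS hone h1'
  have l3 := w0.len_mul h'⁻¹ h
  rw [w0.len_inv] at l3
  have hmem : h'⁻¹ * h ∈ Ni X := by
    rw [← mk_eq, h2']
    exact (mk_mono (le_Ni X j) h2).symm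
  have h4 := mem_norm X D hX j _ (by omega) hmem
  have h5 : (h' : B ⧸ (X j).N) = (g : B ⧸ (X j).N) := (mk_eq.2 h4).trans h2
  rw [← h3', ← h5]
  exact wl_im_le hS h1'

/-- detours -/
theorem det_lim (hS : ∀ s ∈ S, s⁻¹ ∈ S) (hone : ∀ s ∈ S, w0.len s ≤ 1) (r : ℕ) :
    ∃ s : ℕ, ∀ (γ : ℕ → B ⧸ Ni X) (l : ℕ), HGeo (im (Ni X) S) γ l → s ≤ l →
      HDet (im (Ni X) S) Λ r s γ l := by
  refine ⟨(X (r + 1 + 1)).s, fun γ l hγ hs => ?_⟩
  have hr1 : r ≤ (X (r + 1)).R := by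
    have := R_ge X D hX r
    omega
  have hr2 : r ≤ (X (r + 1 + 1)).R := hr1.trans (R_mono X D hX (by omega))
  have hrad := R_ge X D hX (r + 1 + 1)
  set s := (X (r + 1 + 1)).s with hsdef
  have h4s : 4 * s ≤ (X (r + 1 + 1 + 1)).R := by omega
  obtain ⟨τ, hτ, hτS⟩ := lift_path γ s (fun i hi => hγ.1 i (by omega))
  have hτS' : ∀ i, i < s → ((τ i : B ⧸ (X (r + 1 + 1)).N))⁻¹ *
      (τ (i + 1) : B ⧸ (X (r + 1 + 1)).N) ∈ im (X (r + 1 + 1)).N S :=
    fun i hi => ⟨_, hτS i hi, rfl⟩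
  have hgeo : HGeo (im (X (r + 1 + 1)).N S) (fun k => (τ k : B ⧸ (X (r + 1 + 1)).N)) s := by
    refine ⟨hτS', ?_⟩
    have h1 := path_mem hτS' 0 s (by omega)
    rw [zero_add] at h1
    apply le_antisymm h1.2
    have h2 := (wl_anti X hS (r + 1 + 1) ((τ 0)⁻¹ * τ s) h1.1).2
    have h3 : (((τ 0)⁻¹ * τ s : B) : B ⧸ Ni X) = (γ 0)⁻¹ * γ s := by
      rw [QuotientGroup.mk_mul, QuotientGroup.mk_inv, hτ 0 (Nat.zero_le _), hτ s le_rfl]
    rw [h3, hγ.eq (im_inv hS) (Nat.zero_le s) hs, Nat.sub_zero] at h2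
    exact h2
  obtain ⟨i, m, j, σ, M, him, hmj, hjs, hjis, hMs, hσ0, hσM, hσ, hΛ, hfar⟩ :=
    (hX (r + 1)).det _ s hgeo le_rfl
  obtain ⟨ρ, hρ, hρS⟩ := lift_path σ M hσ
  refine ⟨i, m, j, fun k => (ρ k : B ⧸ Ni X), M, him, hmj, hjs.trans hs, hjis, hMs, ?_, ?_,
    ?_, ?_, ?_⟩
  · show (ρ 0 : B ⧸ Ni X) = γ i
    rw [← hτ i (by omega)]
    refine mk_mono (le_Ni X (r + 1 + 1)) ?_
    rw [hρ 0 (Nat.zero_le _)]
    exact hσ0
  · show (ρ M : B ⧸ Ni X) = γ j
    rw [← hτ j (by omega)]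
    refine mk_mono (le_Ni X (r + 1 + 1)) ?_
    rw [hρ M le_rfl]
    exact hσM
  · intro k hk
    exact ⟨_, hρS k hk, rfl⟩
  · intro k k' hk hk'
    have h1 := hΛ k k' hk hk'
    obtain ⟨q, rfl⟩ := Nat.exists_eq_add_of_le hk
    have h2 := path_mem hσ k q hk'
    have e : (((ρ k)⁻¹ * ρ (k + q) : B) : B ⧸ (X (r + 1 + 1)).N) = (σ k)⁻¹ * σ (k + q) := by
      rw [QuotientGroup.mk_mul, QuotientGroup.mk_inv, hρ k (by omega), hρ _ hk']
    have h3 := wl_lim X D hX hS hone (r + 1 + 1) ((ρ k)⁻¹ * ρ (k + q)) (by rw [e]; exact h2.1)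
      (by rw [e]; omega)
    rw [e] at h3
    show k + q - k ≤ Λ * wl (im (Ni X) S) (((ρ k)⁻¹ * ρ (k + q) : B) : B ⧸ Ni X)
    rw [h3]
    exact h1
  · intro k hk
    have h1 := hfar k hk
    have h2 := path_mem hσ 0 k (by omega)
    rw [zero_add] at h2
    obtain ⟨p, hp⟩ := Nat.exists_eq_add_of_le him
    have h3 := path_mem hτS' i p (by omega)
    rw [← hp] at h3
    have e : (((ρ k)⁻¹ * τ m : B) : B ⧸ (X (r + 1 + 1)).N) =
        ((σ 0)⁻¹ * σ k)⁻¹ * ((τ i : B ⧸ (X (r + 1 + 1)).N)⁻¹ * (τ m : B ⧸ (X (r + 1 + 1)).N)) := by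
      rw [QuotientGroup.mk_mul, QuotientGroup.mk_inv, hρ k hk, hσ0]
      group
    have h4 := wl_mul (im_inv hS) (Subgroup.inv_mem _ h2.1) h3.1
    rw [wl_inv (im_inv hS) h2.1, ← e] at h4
    have h5 := wl_lim X D hX hS hone (r + 1 + 1) ((ρ k)⁻¹ * τ m)
      (by rw [e]; exact Subgroup.mul_mem _ (Subgroup.inv_mem _ h2.1) h3.1) (by omega)
    have e2 : (((ρ k)⁻¹ * τ m : B) : B ⧸ (X (r + 1 + 1)).N) =
        (σ k)⁻¹ * (τ m : B ⧸ (X (r + 1 + 1)).N) := by
      rw [QuotientGroup.mk_mul, QuotientGroup.mk_inv, hρ k hk]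
    rw [e2] at h5
    have h6 : (((ρ k)⁻¹ * τ m : B) : B ⧸ Ni X) = ((ρ k : B ⧸ Ni X))⁻¹ * γ m := by
      rw [QuotientGroup.mk_mul, QuotientGroup.mk_inv, hτ m (by omega)]
    rw [h6] at h5
    show r ≤ wl (im (Ni X) S) ((ρ k : B ⧸ Ni X)⁻¹ * γ m)
    rw [h5]
    exact hr2.trans h1

end seq

theorem t (h : S_RSTF) (b : S_RB) : S_RT := by
  obtain ⟨Λ, hst⟩ := step h
  obtain ⟨B, _, w0, f0, S, t, c, b, rd⟩ := b
  choose nx D hnx using hst B w0 f0 S t c b
  let X : ℕ → St w0 f0 S t c b := fun j => Nat.rec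
    (⟨⊥, inferInstance, 0, 0, base rd⟩ : St w0 f0 S t c b) (fun j Y => nx j Y) j
  have hX : ∀ j, Stp Λ j (X j) (X (j + 1)) (D j (X j)) := fun j => hnx j (X j)
  have hfb : {g : B | w0.len g ≤ 1}.Finite := rd.nw.fb 1
  have hnorm : (Subgroup.closure S).Normal := by
    have : Subgroup.closure S = f0.ker := by
      ext g
      rw [← rd.ker]
      exact Iff.rfl
    rw [this]
    infer_instance
  refine ⟨B ⧸ Ni X, inferInstance, gens w0 hfb (Ni X), im (Ni X) S, (t : B ⧸ Ni X), Λ,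
    ?_, ?_, rd.fin.image _, im_inv rd.inv, ?_, ?_, ?_⟩
  · rw [closure_im]
    exact hnorm.map _ (QuotientGroup.mk'_surjective _)
  · have hb := str_lim X (fun j => D j (X j)) hX b rd.sb (str_b X)
    have hbS : (b : B ⧸ Ni X) ∈ im (Ni X) S := ⟨b, rd.bS, rfl⟩
    have hmem : ∀ k : ℕ, (b : B ⧸ Ni X) ^ k ∈ Subgroup.closure (im (Ni X) S) := fun k =>
      Subgroup.pow_mem _ (Subgroup.subset_closure hbS) k
    refine Infinite.of_injective (fun k : ℕ =>
      (⟨(b : B ⧸ Ni X) ^ k, hmem k⟩ : Subgroup.closure (im (Ni X) S))) ?_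
    intro k k' hkk
    have h1 : (b : B ⧸ Ni X) ^ k = (b : B ⧸ Ni X) ^ k' := congrArg Subtype.val hkk
    rw [← hb k, ← hb k', h1]
  · intro k
    rw [len_eq]
    exact str_lim X (fun j => D j (X j)) hX t rd.st (str_t X) k
  · rw [dist_eq]
    exact div_lim X (fun j => D j (X j)) hX rd.st
  · exact det_lim X (fun j => D j (X j)) hX rd.inv rd.one

end Pool.Agent.Y543.RN.Tow
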